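import Pool.Agent.Y616.BM.Pt3

/-!
# The Lindelöf-type bound for the Barnes multiple zeta function holds for almost all weights outside
small sets of ordinates

For every `d ≥ 1` and almost every `v ∈ ℝ^d` the following holds for all `r ≥ 2`, all positive weights
`w` with `ℚ w₁ + ⋯ + ℚ w_r = ℚ v₁ + ⋯ + ℚ v_d` (so that the dimension is `d`) and all `a > 0`: for all
`σ₁`, all `η ≥ 0` and `ε > 0` the set of the `t ∈ [T, 2T]` such that `|ζ_r(σ + it; a, w)| > t^η` for
some `σ ∈ [r - d/2, σ₁]` has measure `O(T^(1 - 2η + ε))`. With `η > 0` and `ε = η`: the bound `t^η` of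
Q1 holds in the whole strip for all `t ∈ [T, 2T]` outside a set of measure `O(T^(1 - η))`.

Proof idea: after subtraction of an explicit elementary function, `Γ(s) ζ_r(s; a, w)` is the Mellin
transform of a regularised kernel `K(z) = exp(-a z) ∏ 1/(1 - exp(-w_j z))`. We rotate the ray of
integration to the angle `π/2 - 1/T`. The average of `|K(z)|²` over the weights in a bounded part of a
rational family is `O((Re z)^(-(2r-d)))`. With Plancherel's theorem this gives the mean square on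
`Re s = r - d/2 - κ` for almost all parameters. Cauchy's formula with a Gaussian weight bounds the
square of the supremum over the strip by a local mean square on this line, uniformly in `σ`.
-/

set_option autoImplicit false

open Filter Topology Asymptotics MeasureTheory

namespace Pool.Agent.Results.MP_fcb754_nt.AlmostAllWeights

/-- The Dirichlet series `∑ (a + m₁ w₁ + ⋯ + m_r w_r)^{-s}` over `m ∈ ℕ^r` (with `0 ∈ ℕ`). -/
noncomputable def barnesSeries (r : ℕ) (a : ℝ) (w : Fin r → ℝ) (s : ℂ) : ℂ :=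
  ∑' m : Fin r → ℕ, ((a + ∑ i, (m i : ℝ) * w i : ℝ) : ℂ) ^ (-s)

/-- `Z` is the Barnes multiple zeta function `ζ_r(·, a, w)`: it is holomorphic on the complex plane
except for possible simple poles at `1, …, r`, and for `Re s > r` it is given by the (summable)
Dirichlet series. -/
structure IsBarnesZeta (r : ℕ) (a : ℝ) (w : Fin r → ℝ) (Z : ℂ → ℂ) : Prop where
  holomorphic : ∀ s : ℂ, (∀ j : ℕ, 1 ≤ j → j ≤ r → s ≠ j) → DifferentiableAt ℂ Z s
  simple_pole : ∀ j : ℕ, 1 ≤ j → j ≤ r →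
    ∃ c : ℂ, Tendsto (fun s : ℂ => (s - j) * Z s) (𝓝[≠] (j : ℂ)) (𝓝 c)
  summable : ∀ s : ℂ, (r : ℝ) < s.re →
    Summable fun m : Fin r → ℕ => ((a + ∑ i, (m i : ℝ) * w i : ℝ) : ℂ) ^ (-s)
  series : ∀ s : ℂ, (r : ℝ) < s.re → Z s = barnesSeries r a w s

/-- The dimension `d` of the `ℚ`-vector space spanned by the weights. -/
noncomputable def weightDim (r : ℕ) (w : Fin r → ℝ) : ℕ :=
  Module.finrank ℚ (Submodule.span ℚ (Set.range w))

/-- The bound of Q1 holds outside small sets: with `d` the dimension of the weights, for all `a > 0`,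
`σ₁`, `η ≥ 0` and `ε > 0`, the set of the `t ∈ [T, 2T]` for which `|ζ_r(σ + it, a, w)| > t^η` for some
`σ ∈ [r - d/2, σ₁]` has measure at most `C T^(1 - 2η + ε)`. -/
def LargeValuesRare (r : ℕ) (w : Fin r → ℝ) : Prop :=
  ∀ (a : ℝ) (Z : ℂ → ℂ), 0 < a → IsBarnesZeta r a w Z → ∀ σ₁ η ε : ℝ, 0 ≤ η → 0 < ε →
    ∃ C : ℝ, ∀ T : ℝ, 2 ≤ T →
      volume {t : ℝ | T ≤ t ∧ t ≤ 2 * T ∧ ∃ σ : ℝ, (r : ℝ) - (weightDim r w : ℝ) / 2 ≤ σ ∧
        σ ≤ σ₁ ∧ t ^ η < ‖Z (σ + t * Complex.I)‖} ≤ ENNReal.ofReal (C * T ^ (1 - 2 * η + ε))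

theorem exists_zeta (r : ℕ) (a : ℝ) (w : Fin r → ℝ) (ha : 0 < a) (hw : ∀ i, 0 < w i) :
    ∃ Z : ℂ → ℂ, IsBarnesZeta r a w Z := by
  obtain ⟨c, hc⟩ := Pool.Agent.H131R5.BZ.exists_taylor a hw
  refine ⟨Pool.Agent.H131R5.BZ.FF a w c, ?_, ?_, ?_, ?_⟩
  · exact fun s hs => Pool.Agent.H131R5.BZ.FF_diff ha hw hc hs
  · exact fun j h1 h2 => Pool.Agent.Y930.Bz.FF_pole ha hw hc j h1 h2
  · exact fun s hs => (Pool.Agent.H131R5.BZ.FF_series ha hw hc hs).summable
  · exact fun s hs => (Pool.Agent.H131R5.BZ.FF_series ha hw hc hs).tsum_eq.symm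

theorem zeta_eq {r : ℕ} {a : ℝ} {w : Fin r → ℝ} {c : ℕ → ℂ} (ha : 0 < a) (hw : ∀ i, 0 < w i)
    (hc : Pool.Agent.Y930.Bz.Tay a w c) {Z : ℂ → ℂ} (hZ : IsBarnesZeta r a w Z) (σ : ℝ) {t : ℝ}
    (ht : 0 < t) : Z ((σ : ℂ) + t * Complex.I) =
      Pool.Agent.H131R5.BZ.FF a w c ((σ : ℂ) + t * Complex.I) := by
  have hE := Pool.Agent.Y930.Bz.eq_FF ha hw hc (fun s hs => hZ.holomorphic s hs)
    (fun s hs => hZ.series s hs)
  have hm : ((σ : ℂ) + t * Complex.I) ∈ Pool.Agent.Y930.Bz.Om r := by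
    intro k _ _ h
    have := congrArg Complex.im h
    simp at this
    linarith
  exact hE _ hm

theorem weightDim_eq {d : ℕ} {v : Fin d → ℝ} (hv : LinearIndependent ℚ v) {r : ℕ} {w : Fin r → ℝ}
    (hspan : Submodule.span ℚ (Set.range w) = Submodule.span ℚ (Set.range v)) :
    weightDim r w = d := by
  unfold weightDim
  rw [hspan, finrank_span_eq_card hv]
  simp

theorem rare_of_good {d : ℕ} {v : Fin d → ℝ} (hv : LinearIndependent ℚ v)
    (hG : Pool.Agent.Y616.BM.Good v) {r : ℕ} (hr : 2 ≤ r) {w : Fin r → ℝ} (hw : ∀ i, 0 < w i)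
    (hspan : Submodule.span ℚ (Set.range w) = Submodule.span ℚ (Set.range v)) :
    LargeValuesRare r w := by
  intro a Z ha hZ σ₁ η ε hη hε
  rw [weightDim_eq hv hspan]
  obtain ⟨B, e, he, -, -⟩ := Pool.Agent.Y616.BM.lin hv hspan
  have hdr : d ≤ r := by
    simpa using Fintype.card_le_of_injective e he
  have hdr' : (d : ℝ) ≤ r := Nat.cast_le.2 hdr
  have hr' : (2 : ℝ) ≤ r := by exact_mod_cast hr
  obtain ⟨c, hc⟩ := Pool.Agent.H131R5.BZ.exists_taylor a hw
  set m : ℝ := (r : ℝ) - d / 2 with hm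
  have hm1 : 1 ≤ m := by linarith
  set κ : ℝ := min (ε / 4) (1 / 2) with hκ
  have hκ0 : 0 < κ := lt_min (by positivity) (by norm_num)
  have hκ1 : κ ≤ 1 / 2 := min_le_right _ _
  have hκε : κ ≤ ε / 4 := min_le_left _ _
  obtain ⟨C₀, hC₀, h1⟩ := Pool.Agent.Y616.BM.second_moment' hv hG ha hw hspan hc
    (σ := m - κ) (m := m) (by linarith) (by linarith) le_rfl (ε := ε / 2) (by positivity)
  have e1 : 1 + 2 * (m - (m - κ)) + ε / 2 = 1 + 2 * κ + ε / 2 := by ring
  rw [e1] at h1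
  obtain ⟨C, hC, h2⟩ := Pool.Agent.Y616.BM.bad_measure (σ₁ := σ₁) ha hw hc (α := m - κ)
    (by linarith) hκ0 (by linarith) (by linarith) hC₀ h1 hη
  refine ⟨C, fun T hT => ?_⟩
  have hT1 : 1 ≤ T := by linarith
  calc _ ≤ volume {t : ℝ | t ∈ Set.Icc T (2 * T) ∧ ∃ σ : ℝ, (m - κ) + κ ≤ σ ∧ σ ≤ σ₁ ∧
        t ^ η < ‖Pool.Agent.H131R5.BZ.FF a w c ((σ : ℂ) + t * Complex.I)‖} := by
        refine measure_mono ?_
        rintro t ⟨ht1, ht2, σ, hσ, hσ1, hbig⟩
        refine ⟨⟨ht1, ht2⟩, σ, by linarith, hσ1, ?_⟩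
        rw [← zeta_eq ha hw hc hZ σ (by linarith)]
        exact hbig
    _ ≤ ENNReal.ofReal (C * T ^ (1 + 2 * κ + ε / 2 - 2 * η)) := h2 T hT
    _ ≤ _ := by
        apply ENNReal.ofReal_le_ofReal
        refine mul_le_mul_of_nonneg_left ?_ hC
        exact Real.rpow_le_rpow_of_exponent_le hT1 (by linarith)

/-- the span of the weights of a rational family -/
theorem span_of_matrix {r d : ℕ} (B : Matrix (Fin r) (Fin d) ℚ) (hB : Function.Injective B.mulVec)
    (v : Fin d → ℝ) :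
    Submodule.span ℚ (Set.range ((B.map (fun q : ℚ => (q : ℝ))).mulVec v)) =
      Submodule.span ℚ (Set.range v) := by
  set w := (B.map (fun q : ℚ => (q : ℝ))).mulVec v with hw
  have hwj : ∀ j, w j = ∑ i, B j i • v i := by
    intro j
    simp only [hw, Matrix.mulVec, dotProduct, Matrix.map_apply, Rat.smul_def]
  obtain ⟨g, hg⟩ := LinearMap.exists_leftInverse_of_injective B.mulVecLin
    (LinearMap.ker_eq_bot.2 hB)
  set G := LinearMap.toMatrix' g with hG
  have hGB : G * B = 1 := by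
    have h1 := congrArg LinearMap.toMatrix' hg
    rw [LinearMap.toMatrix'_comp, LinearMap.toMatrix'_id] at h1
    rw [← h1, hG]
    congr 1
    exact (LinearMap.toMatrix'_toLin' B).symm
  have hvi : ∀ i, v i = ∑ j, G i j • w j := by
    intro i
    calc v i = ∑ k, (1 : Matrix (Fin d) (Fin d) ℚ) i k • v k := by
          simp [Matrix.one_apply]
      _ = ∑ k, (∑ j, G i j * B j k) • v k := by
          rw [← hGB]
          rfl
      _ = ∑ j, G i j • ∑ k, B j k • v k := by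
          simp only [Finset.smul_sum, Finset.sum_smul, smul_smul]
          exact Finset.sum_comm
      _ = _ := by simp only [hwj]
  apply le_antisymm
  · rw [Submodule.span_le]
    rintro _ ⟨j, rfl⟩
    rw [hwj j]
    exact Submodule.sum_mem _ fun i _ => Submodule.smul_mem _ _
      (Submodule.subset_span (Set.mem_range_self i))
  · rw [Submodule.span_le]
    rintro _ ⟨i, rfl⟩
    rw [hvi i]
    exact Submodule.sum_mem _ fun j _ => Submodule.smul_mem _ _
      (Submodule.subset_span (Set.mem_range_self j))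

/-- (1) The Barnes multiple zeta function exists (as defined above) for all `r`, `a > 0` and positive
weights `w`. (2) For every `d ≥ 1` and almost every `v ∈ ℝ^d`: all positive weights `w`, in any number
`r ≥ 2`, which span the same `ℚ`-space as `v` have dimension `d` and satisfy `LargeValuesRare`.
(3) For `1 ≤ d`, `2 ≤ r` and every rational `r × d` matrix `B` of rank `d`, for almost every
`v ∈ ℝ^d` this holds for the weights `w = B v`, if they are positive. (4) Almost all positive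
`w ∈ ℝ^r`, `r ≥ 2`, have dimension `r` and satisfy `LargeValuesRare`. -/
theorem result :
    (∀ (r : ℕ) (a : ℝ) (w : Fin r → ℝ), 0 < a → (∀ i, 0 < w i) →
      ∃ Z : ℂ → ℂ, IsBarnesZeta r a w Z) ∧
    (∀ d : ℕ, 1 ≤ d → ∀ᵐ v : Fin d → ℝ, LinearIndependent ℚ v ∧
      ∀ (r : ℕ) (w : Fin r → ℝ), 2 ≤ r → (∀ i, 0 < w i) →
        Submodule.span ℚ (Set.range w) = Submodule.span ℚ (Set.range v) →
        weightDim r w = d ∧ LargeValuesRare r w) ∧
    (∀ r d : ℕ, 2 ≤ r → 1 ≤ d → ∀ B : Matrix (Fin r) (Fin d) ℚ, Function.Injective B.mulVec →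
      ∀ᵐ v : Fin d → ℝ, (∀ i, 0 < (B.map (fun q : ℚ => (q : ℝ))).mulVec v i) →
        weightDim r ((B.map (fun q : ℚ => (q : ℝ))).mulVec v) = d ∧
          LargeValuesRare r ((B.map (fun q : ℚ => (q : ℝ))).mulVec v)) ∧
    (∀ r : ℕ, 2 ≤ r → ∀ᵐ w : Fin r → ℝ, (∀ i, 0 < w i) →
      weightDim r w = r ∧ LargeValuesRare r w) := by
  refine ⟨exists_zeta, fun d hd => ?_, fun r d hr hd B hB => ?_, fun r hr => ?_⟩
  · filter_upwards [Pool.Agent.Y616.BM.ae_good d, Pool.Agent.Y616.BM.ae_indep d] with v hG hv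
    exact ⟨hv, fun r w hr hw hspan => ⟨weightDim_eq hv hspan, rare_of_good hv hG hr hw hspan⟩⟩
  · filter_upwards [Pool.Agent.Y616.BM.ae_good d, Pool.Agent.Y616.BM.ae_indep d] with v hG hv hw
    have hspan := span_of_matrix B hB v
    exact ⟨weightDim_eq hv hspan, rare_of_good hv hG hr hw hspan⟩
  · filter_upwards [Pool.Agent.Y616.BM.ae_good r, Pool.Agent.Y616.BM.ae_indep r] with v hG hv hw
    exact ⟨weightDim_eq hv rfl, rare_of_good hv hG hr hw rfl⟩

end Pool.Agent.Results.MP_fcb754_nt.AlmostAllWeights
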