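import Pool.Agent.Y616.BM.Lin3

/-!
# A pointwise bound for the Barnes multiple zeta function and almost all weights

For every `d ≥ 1` and almost every `v ∈ ℝ^d` the following holds for all `r`, all positive weights `w`
with `ℚ w₁ + ⋯ + ℚ w_r = ℚ v₁ + ⋯ + ℚ v_d` (so that the dimension is `d`) and all `a > 0`: for all
`ε > 0` we have `ζ_r(σ + it; a, w) = O(t^((r - σ)/(2d) + ε))` uniformly in `r - d + ε ≤ σ ≤ r`. At the
left end `σ = r - d/2` of the range of Q1 the exponent is `1/4 + ε`, for all `r` and `d`. (For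
exceptional weights the exponent there is at least `(d-1)/2`, see `AllDimensions`.)

Proof idea: after subtraction of an explicit elementary function, `Γ(s) ζ_r(s; a, w)` is the Mellin
transform of a regularised kernel `K(z) = exp(-a z) ∏ 1/(1 - exp(-w_j z))`. We rotate the ray of
integration to the angle `π/2 - 1/T`. The average of `|K(z)|` over the weights in a bounded part of a
rational family is `O((Re z)^(-(r-d)-ε))`. So for almost all parameters the function is
`O(t^(1/2 + ε))` on `Re s = r - d + κ`. The maximum principle gives the result.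
-/

set_option autoImplicit false

open Filter Topology Asymptotics MeasureTheory

namespace Pool.Agent.Results.MP_fcb754_nt.PointwiseAlmostAll

/-- The Dirichlet series `∑ (a + m₁ w₁ + ⋯ + m_r w_r)^{-s}` over `m ∈ ℕ^r` (with `0 ∈ ℕ`). -/
noncomputable def barnesSeries (r : ℕ) (a : ℝ) (w : Fin r → ℝ) (s : ℂ) : ℂ :=
  ∑' m : Fin r → ℕ, ((a + ∑ i, (m i : ℝ) * w i : ℝ) : ℂ) ^ (-s)

/-- `Z` is the Barnes multiple zeta function `ζ_r(·, a, w)`: it is holomorphic on the complex plane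
except for possible simple poles at `1, …, r`, and for `Re s > r` it is given by the (summable)
Dirichlet series. -/
structure IsBarnesZeta (r : ℕ) (a : ℝ) (w : Fin r → ℝ) (Z : ℂ → ℂ) : Prop where
  holomorphic : ∀ s : ℂ, (∀ j : ℕ, 1 ≤ j → j ≤ r → s ≠ j) → DifferentiableAt ℂ Z s
  simple_pole : ∀ j : ℕ, 1 ≤ j → j ≤ r →
    ∃ c : ℂ, Tendsto (fun s : ℂ => (s - j) * Z s) (𝓝[≠] (j : ℂ)) (𝓝 c)
  summable : ∀ s : ℂ, (r : ℝ) < s.re →
    Summable fun m : Fin r → ℕ => ((a + ∑ i, (m i : ℝ) * w i : ℝ) : ℂ) ^ (-s)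
  series : ∀ s : ℂ, (r : ℝ) < s.re → Z s = barnesSeries r a w s

/-- The dimension `d` of the `ℚ`-vector space spanned by the weights. -/
noncomputable def weightDim (r : ℕ) (w : Fin r → ℝ) : ℕ :=
  Module.finrank ℚ (Submodule.span ℚ (Set.range w))

/-- The pointwise bound: with `d` the dimension of the weights, for all `a > 0` and `ε > 0` we have
`|ζ_r(σ + it, a, w)| ≤ C t^((r - σ)/(2d) + ε)` for `r - d + ε ≤ σ ≤ r` and `t ≥ 2`. -/
def PointwiseBound (r : ℕ) (w : Fin r → ℝ) : Prop :=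
  ∀ (a : ℝ) (Z : ℂ → ℂ), 0 < a → IsBarnesZeta r a w Z → ∀ ε : ℝ, 0 < ε →
    ∃ C : ℝ, ∀ σ t : ℝ, (r : ℝ) - (weightDim r w : ℝ) + ε ≤ σ → σ ≤ r → 2 ≤ t →
      ‖Z (σ + t * Complex.I)‖ ≤ C * t ^ (((r : ℝ) - σ) / (2 * (weightDim r w : ℝ)) + ε)

theorem exists_zeta (r : ℕ) (a : ℝ) (w : Fin r → ℝ) (ha : 0 < a) (hw : ∀ i, 0 < w i) :
    ∃ Z : ℂ → ℂ, IsBarnesZeta r a w Z := by
  obtain ⟨c, hc⟩ := Pool.Agent.H131R5.BZ.exists_taylor a hw
  refine ⟨Pool.Agent.H131R5.BZ.FF a w c, ?_, ?_, ?_, ?_⟩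
  · exact fun s hs => Pool.Agent.H131R5.BZ.FF_diff ha hw hc hs
  · exact fun j h1 h2 => Pool.Agent.Y930.Bz.FF_pole ha hw hc j h1 h2
  · exact fun s hs => (Pool.Agent.H131R5.BZ.FF_series ha hw hc hs).summable
  · exact fun s hs => (Pool.Agent.H131R5.BZ.FF_series ha hw hc hs).tsum_eq.symm

theorem zeta_eq {r : ℕ} {a : ℝ} {w : Fin r → ℝ} {c : ℕ → ℂ} (ha : 0 < a) (hw : ∀ i, 0 < w i)
    (hc : Pool.Agent.Y930.Bz.Tay a w c) {Z : ℂ → ℂ} (hZ : IsBarnesZeta r a w Z) (σ : ℝ) {t : ℝ}
    (ht : 0 < t) : Z ((σ : ℂ) + t * Complex.I) =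
      Pool.Agent.H131R5.BZ.FF a w c ((σ : ℂ) + t * Complex.I) := by
  have hE := Pool.Agent.Y930.Bz.eq_FF ha hw hc (fun s hs => hZ.holomorphic s hs)
    (fun s hs => hZ.series s hs)
  have hm : ((σ : ℂ) + t * Complex.I) ∈ Pool.Agent.Y930.Bz.Om r := by
    intro k _ _ h
    have := congrArg Complex.im h
    simp at this
    linarith
  exact hE _ hm

theorem weightDim_eq {d : ℕ} {v : Fin d → ℝ} (hv : LinearIndependent ℚ v) {r : ℕ} {w : Fin r → ℝ}
    (hspan : Submodule.span ℚ (Set.range w) = Submodule.span ℚ (Set.range v)) :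
    weightDim r w = d := by
  unfold weightDim
  rw [hspan, finrank_span_eq_card hv]
  simp

theorem pointwise_of_good {d : ℕ} (hd : 1 ≤ d) {v : Fin d → ℝ} (hv : LinearIndependent ℚ v)
    (hG : Pool.Agent.Y616.BM.Goo v) {r : ℕ} {w : Fin r → ℝ} (hw : ∀ i, 0 < w i)
    (hspan : Submodule.span ℚ (Set.range w) = Submodule.span ℚ (Set.range v)) :
    PointwiseBound r w := by
  intro a Z ha hZ ε hε
  rw [weightDim_eq hv hspan]
  obtain ⟨B, e, he, -, -⟩ := Pool.Agent.Y616.BM.lin hv hspan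
  have hdr : d ≤ r := by
    simpa using Fintype.card_le_of_injective e he
  have hdr' : (d : ℝ) ≤ r := Nat.cast_le.2 hdr
  have hd' : (1 : ℝ) ≤ d := by exact_mod_cast hd
  obtain ⟨c, hc⟩ := Pool.Agent.H131R5.BZ.exists_taylor a hw
  set α : ℝ := (r : ℝ) - d + ε with hα
  set β : ℝ := (r : ℝ) + ε with hβ
  have hα0 : 0 < α := by linarith
  have hβα : β - α = d := by rw [hα, hβ]; ring
  obtain ⟨C₀, hC₀, h0⟩ := Pool.Agent.Y616.BM.line_bound hv hG ha hw hspan hc hα0
    (by linarith) (ε := ε / 2) (by positivity)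
  obtain ⟨A, hA, h1⟩ := Pool.Agent.Y616.BM.FF_line_bdd ha hw hc (β := β) (by linarith)
  obtain ⟨C, hC, h2⟩ := Pool.Agent.Y616.BM.interp ha hw hc hα0 (by linarith) (by positivity) hC₀ hA
    h0 h1
  refine ⟨C, fun σ t hσ hσr ht => ?_⟩
  rw [zeta_eq ha hw hc hZ σ (by linarith)]
  refine (h2 σ t hσ (by linarith) ht).trans (mul_le_mul_of_nonneg_left ?_ hC)
  refine Real.rpow_le_rpow_of_exponent_le (by linarith) ?_
  rw [hβα]
  have e1 : (1 / 2 + ε / 2) * (β - σ) / d =
      ((r : ℝ) - σ) / (2 * d) + (ε / (2 * d) + ε / 2 * ((β - σ) / d)) := by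
    rw [hβ]
    field_simp
    ring
  rw [e1]
  have e2 : ε / (2 * d) ≤ ε / 2 := by
    rw [div_le_div_iff₀ (by positivity) (by norm_num)]
    nlinarith
  have e3 : (β - σ) / d ≤ 1 := by
    rw [div_le_one (by positivity)]
    linarith
  have e4 : ε / 2 * ((β - σ) / d) ≤ ε / 2 * 1 := by gcongr
  linarith

/-- the span of the weights of a rational family -/
theorem span_of_matrix {r d : ℕ} (B : Matrix (Fin r) (Fin d) ℚ) (hB : Function.Injective B.mulVec)
    (v : Fin d → ℝ) :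
    Submodule.span ℚ (Set.range ((B.map (fun q : ℚ => (q : ℝ))).mulVec v)) =
      Submodule.span ℚ (Set.range v) := by
  set w := (B.map (fun q : ℚ => (q : ℝ))).mulVec v with hw
  have hwj : ∀ j, w j = ∑ i, B j i • v i := by
    intro j
    simp only [hw, Matrix.mulVec, dotProduct, Matrix.map_apply, Rat.smul_def]
  obtain ⟨g, hg⟩ := LinearMap.exists_leftInverse_of_injective B.mulVecLin
    (LinearMap.ker_eq_bot.2 hB)
  set G := LinearMap.toMatrix' g with hG
  have hGB : G * B = 1 := by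
    have h1 := congrArg LinearMap.toMatrix' hg
    rw [LinearMap.toMatrix'_comp, LinearMap.toMatrix'_id] at h1
    rw [← h1, hG]
    congr 1
    exact (LinearMap.toMatrix'_toLin' B).symm
  have hvi : ∀ i, v i = ∑ j, G i j • w j := by
    intro i
    calc v i = ∑ k, (1 : Matrix (Fin d) (Fin d) ℚ) i k • v k := by
          simp [Matrix.one_apply]
      _ = ∑ k, (∑ j, G i j * B j k) • v k := by
          rw [← hGB]
          rfl
      _ = ∑ j, G i j • ∑ k, B j k • v k := by
          simp only [Finset.smul_sum, Finset.sum_smul, smul_smul]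
          exact Finset.sum_comm
      _ = _ := by simp only [hwj]
  apply le_antisymm
  · rw [Submodule.span_le]
    rintro _ ⟨j, rfl⟩
    rw [hwj j]
    exact Submodule.sum_mem _ fun i _ => Submodule.smul_mem _ _
      (Submodule.subset_span (Set.mem_range_self i))
  · rw [Submodule.span_le]
    rintro _ ⟨i, rfl⟩
    rw [hvi i]
    exact Submodule.sum_mem _ fun j _ => Submodule.smul_mem _ _
      (Submodule.subset_span (Set.mem_range_self j))

/-- (1) The Barnes multiple zeta function exists (as defined above) for all `r`, `a > 0` and positive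
weights `w`. (2) For every `d ≥ 1` and almost every `v ∈ ℝ^d`: all positive weights `w`, in any number
`r`, which span the same `ℚ`-space as `v` have dimension `d` and satisfy `PointwiseBound`.
(3) For `1 ≤ d` and every rational `r × d` matrix `B` of rank `d`, for almost every `v ∈ ℝ^d` this
holds for the weights `w = B v`, if they are positive. (4) Almost all positive `w ∈ ℝ^r` have
dimension `r` and satisfy `PointwiseBound`. -/
theorem result :
    (∀ (r : ℕ) (a : ℝ) (w : Fin r → ℝ), 0 < a → (∀ i, 0 < w i) →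
      ∃ Z : ℂ → ℂ, IsBarnesZeta r a w Z) ∧
    (∀ d : ℕ, 1 ≤ d → ∀ᵐ v : Fin d → ℝ, LinearIndependent ℚ v ∧
      ∀ (r : ℕ) (w : Fin r → ℝ), (∀ i, 0 < w i) →
        Submodule.span ℚ (Set.range w) = Submodule.span ℚ (Set.range v) →
        weightDim r w = d ∧ PointwiseBound r w) ∧
    (∀ r d : ℕ, 1 ≤ d → ∀ B : Matrix (Fin r) (Fin d) ℚ, Function.Injective B.mulVec →
      ∀ᵐ v : Fin d → ℝ, (∀ i, 0 < (B.map (fun q : ℚ => (q : ℝ))).mulVec v i) →
        weightDim r ((B.map (fun q : ℚ => (q : ℝ))).mulVec v) = d ∧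
          PointwiseBound r ((B.map (fun q : ℚ => (q : ℝ))).mulVec v)) ∧
    (∀ r : ℕ, 1 ≤ r → ∀ᵐ w : Fin r → ℝ, (∀ i, 0 < w i) →
      weightDim r w = r ∧ PointwiseBound r w) := by
  refine ⟨exists_zeta, fun d hd => ?_, fun r d hd B hB => ?_, fun r hr => ?_⟩
  · filter_upwards [Pool.Agent.Y616.BM.ae_goo d, Pool.Agent.Y616.BM.ae_indep d] with v hG hv
    exact ⟨hv, fun r w hw hspan => ⟨weightDim_eq hv hspan, pointwise_of_good hd hv hG hw hspan⟩⟩
  · filter_upwards [Pool.Agent.Y616.BM.ae_goo d, Pool.Agent.Y616.BM.ae_indep d] with v hG hv hw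
    have hspan := span_of_matrix B hB v
    exact ⟨weightDim_eq hv hspan, pointwise_of_good hd hv hG hw hspan⟩
  · filter_upwards [Pool.Agent.Y616.BM.ae_goo r, Pool.Agent.Y616.BM.ae_indep r] with v hG hv hw
    exact ⟨weightDim_eq hv rfl, pointwise_of_good hr hv hG hw rfl⟩

end Pool.Agent.Results.MP_fcb754_nt.PointwiseAlmostAll
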